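import Mathlib
import Pool.Agent.H46KC.Fin

set_option autoImplicit false

/-!
# MP_16b0ee_an: the strong Marshall bound near potentials of complex measures, with strips of any direction

Let `ψ ∈ Σ`, `h = log ψ'`. We prove the bound of the question for `0 < a < 1`, `a β < 1` (hence in the full range
`0 < a < 1` of the question if `β = 1`), and the uniform boundedness of the integral means of `|ψ' ^ τ|` for all complex
`τ` with `|τ| < 1`, `|τ| β < 1`, uniformly for all `R > 1` and for all `ψ ∈ Σ` in each of two classes. In both of them the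
condition is only needed for radii `ρ` arbitrarily close to `1`.

* `NearPotential M β`: for a complex measure `ω` of total variation at most `M` on the circle `|ζ| = ρ` the function
  `h(z) - ∫ log (1 - ζ/z) dω(ζ)` has its values in a strip of width `β π`, of any direction. For `β = 0` these are the
  pure potentials (bounded boundary rotation for real `ω`); starlike and spirallike omitted sets satisfy this with
  `β = 1`, `M = 2` by the classical representation of such maps, and so do the close-to-convex maps.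
* `NearBV V β`: for some `u` with `|u| = 1` the function `Im (u h(ρ e^{iθ}))` is at distance at most `β π / 2` from some
  function of `θ` with total variation at most `V`. For `u = 1` this is a condition on the direction of the tangent of the
  level curve `ψ {|z| = ρ}`, for `u = i` it is a condition on `log |ψ'|`.

The proof. Let `H(v) = h(1/v)`. An arc of length `t` is called light if the part of `ω` on a fixed multiple of it has total
variation at most `ε`. If an arc is light, then the mean of `|exp (τ (H - H(p)))|` over it, `p` the point of the disc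
above it, is bounded by a constant times `t`: the far part of the potential is almost constant there, and `τ` times the
near part plus the part with values in the strip has its imaginary part (after a rotation, which changes the absolute
value by a bounded factor) in an interval of length `< π`. At each dyadic level only boundedly many arcs are not light. A
stopping time argument and the bound `|H(p)| ≤ log (1 / (1 - |p|²))` of Goluzin at the light arcs give a geometric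
series. Boundary data are reduced to potentials of finitely many masses by the Poisson formula.
-/

namespace Pool.Agent.Results.MP_16b0ee_an.AnyDirection

/-- The point `r e^{iθ}`. -/
noncomputable def circ (r θ : ℝ) : ℂ := (r : ℂ) * Complex.exp ((θ : ℂ) * Complex.I)

/-- `ψ ∈ Σ` and `h = log ψ'` (the branch vanishing at infinity), exactly as in the problem. -/
def IsSigma (ψ h : ℂ → ℂ) : Prop :=
  DifferentiableOn ℂ ψ {z : ℂ | 1 < ‖z‖} ∧
  Set.InjOn ψ {z : ℂ | 1 < ‖z‖} ∧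
  (∃ b : ℂ, Filter.Tendsto (fun z => ψ z - z) (Bornology.cobounded ℂ) (nhds b)) ∧
  DifferentiableOn ℂ h {z : ℂ | 1 < ‖z‖} ∧
  (∀ z : ℂ, 1 < ‖z‖ → Complex.exp (h z) = deriv ψ z) ∧
  Filter.Tendsto h (Bornology.cobounded ℂ) (nhds 0)

/-- The integral of Q1. -/
noncomputable def marshall (a R : ℝ) (h : ℂ → ℂ) : ℝ :=
  (1 / (2 * Real.pi)) * ∫ θ in (0:ℝ)..(2 * Real.pi),
    Real.exp (a * ‖h (circ R θ)‖ ^ 2 / Real.log (R ^ 2 / (R ^ 2 - 1)))

/-- The integral mean of `|ψ' ^ τ|` over the circle `|z| = R`, `τ` complex, `h = log ψ'`. -/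
noncomputable def powerMean (τ : ℂ) (R : ℝ) (h : ℂ → ℂ) : ℝ :=
  (1 / (2 * Real.pi)) * ∫ θ in (0:ℝ)..(2 * Real.pi), ‖Complex.exp (τ * h (circ R θ))‖

/-- For radii `ρ > 1` arbitrarily close to `1` there are a number `u` with `|u| = 1` and a function `S` of total
variation at most `V` on `[0, 2π]` such that `|Im (u h(ρ e^{iθ})) - S(θ)| ≤ β π / 2` for all `θ` in `[0, 2π]`. -/
def NearBV (V β : ℝ) (h : ℂ → ℂ) : Prop :=
  ∀ R : ℝ, 1 < R → ∃ ρ : ℝ, 1 < ρ ∧ ρ < R ∧ ∃ (u : ℂ) (S : ℝ → ℝ), ‖u‖ = 1 ∧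
    eVariationOn S (Set.Icc 0 (2 * Real.pi)) ≤ ENNReal.ofReal V ∧
    ∀ θ ∈ Set.Icc (0:ℝ) (2 * Real.pi), |(u * h (circ ρ θ)).im - S θ| ≤ β * (Real.pi / 2)

/-- For radii `ρ ≥ 1` arbitrarily close to `1` there is a complex measure `w μ` (`μ` positive of mass at most `M`,
`|w| ≤ 1`) such that for `|z| > ρ` the values of `h(z) - ∫ log (1 - ζ/z) w(ζ) dμ(ζ)`, the integral over the circle
`|ζ| = ρ`, lie in the strip `|Im (u ·) - γ| ≤ β π / 2`, with `|u| = 1`. -/
def NearPotential (M β : ℝ) (h : ℂ → ℂ) : Prop :=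
  ∀ R : ℝ, 1 < R → ∃ ρ : ℝ, 1 ≤ ρ ∧ ρ < R ∧
    ∃ (μ : MeasureTheory.Measure ℂ) (w : ℂ → ℂ) (u : ℂ) (γ : ℝ),
      MeasureTheory.IsFiniteMeasure μ ∧ μ.real Set.univ ≤ M ∧ Measurable w ∧ (∀ ζ, ‖w ζ‖ ≤ 1) ∧ ‖u‖ = 1 ∧
      ∀ z : ℂ, ρ < ‖z‖ →
        |(u * (h z - ∫ ζ in Metric.sphere (0 : ℂ) ρ, w ζ * Complex.log (1 - ζ / z) ∂μ)).im - γ| ≤ β * (Real.pi / 2)

open Pool.Agent.H46KC in
theorem adm_of {ψ h : ℂ → ℂ} (hS : IsSigma ψ h) {M β β' : ℝ} (hββ : β < β')
    (hc : NearBV M β h ∨ NearPotential M β h) :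
    Adm (max M 0 + 2 * max M 0 / Real.pi) β' (Pool.Agent.W677.Mar.hat h 0) := by
  have hpi := Real.pi_pos
  have hE := Q90.SM.ext_all ψ h hS
  have hHd := hE.1.dH
  have hG : ∀ v ∈ Metric.ball (0 : ℂ) 1, ‖Pool.Agent.W677.Mar.hat h 0 v‖ ≤ -Real.log (1 - ‖v‖ ^ 2) :=
    fun v hv => Pool.Agent.W677.Mar.goluzin hE.1 hv
  have hM0 : 0 ≤ max M 0 := le_max_right _ _
  have p1 : 0 ≤ 2 * max M 0 / Real.pi := by positivity
  refine ⟨hHd, hG, fun r hr0 hr1 => ?_⟩
  have hR : 1 < r⁻¹ := (one_lt_inv₀ hr0).2 hr1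
  have hsr : ∀ ρ : ℝ, 1 ≤ ρ → ρ < r⁻¹ → r < ρ⁻¹ := by
    intro ρ h1 h2
    rw [lt_inv_comm₀ hr0 (by linarith)]
    exact h2
  rcases hc with hb | hp
  · obtain ⟨ρ, hρ1, hρR, u, S, hu, hS1, hS2⟩ := hb r⁻¹ hR
    refine ⟨ρ⁻¹, hsr ρ hρ1.le hρR, ?_⟩
    have hS1' : eVariationOn S (Set.Icc 0 (2 * Real.pi)) ≤ ENNReal.ofReal (max M 0) :=
      hS1.trans (ENNReal.ofReal_le_ofReal (le_max_left _ _))
    refine (cls_bv hHd hG hρ1 hM0 hu hS1' hS2 hββ).mono ?_ le_rfl
    linarith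
  · obtain ⟨ρ, hρ1, hρR, μ, w, u, γ, h1, h2, h3, h4, h5, h6⟩ := hp r⁻¹ hR
    refine ⟨ρ⁻¹, hsr ρ hρ1 hρR, ?_⟩
    refine (cls_pot hHd hG hρ1 h1 h2 h3 h4 h5 h6).mono ?_ hββ.le
    have := le_max_left M 0
    linarith

theorem result :
    (∀ M β a : ℝ, 0 ≤ β → 0 < a → a < 1 → a * β < 1 →
      ∃ C : ℝ, ∀ R : ℝ, 1 < R → ∀ ψ h : ℂ → ℂ, IsSigma ψ h →
        (NearBV M β h ∨ NearPotential M β h) → marshall a R h ≤ C) ∧
    (∀ (M β : ℝ) (τ : ℂ), 0 ≤ β → ‖τ‖ < 1 → ‖τ‖ * β < 1 →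
      ∃ C : ℝ, ∀ R : ℝ, 1 < R → ∀ ψ h : ℂ → ℂ, IsSigma ψ h →
        (NearBV M β h ∨ NearPotential M β h) → powerMean τ R h ≤ C) := by
  have hM' : ∀ M β : ℝ, 0 ≤ β → 0 ≤ max M 0 + 2 * max M 0 / Real.pi := by
    intro M β hβ
    have hpi := Real.pi_pos
    have hM0 : 0 ≤ max M 0 := le_max_right _ _
    positivity
  constructor
  · intro M β a hβ ha0 ha1 haβ
    obtain ⟨β', hββ, haβ'⟩ : ∃ β' : ℝ, β < β' ∧ a * β' < 1 := by
      refine ⟨β + (1 - a * β) / 2, by linarith, ?_⟩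
      nlinarith
    obtain ⟨C, hC⟩ := Pool.Agent.H46KC.em_adm (hβ.trans hββ.le) (hM' M β hβ) ha0 ha1 haβ'
    refine ⟨C, fun R hR ψ h hS hc => ?_⟩
    have hE := Q90.SM.ext_all ψ h hS
    have hR0 : 0 < R⁻¹ := by positivity
    have hR1 : R⁻¹ < 1 := inv_lt_one_of_one_lt₀ hR
    have h1 := hC (Pool.Agent.W677.Mar.hat h 0) (adm_of hS hββ hc) R⁻¹ hR0 hR1
    rw [← hE.2.1 a R hR] at h1
    exact h1
  · intro M β τ hβ hτ hτβ
    obtain ⟨β', hββ, hτβ'⟩ : ∃ β' : ℝ, β < β' ∧ ‖τ‖ * β' < 1 := by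
      refine ⟨β + (1 - ‖τ‖ * β) / 2, by linarith, ?_⟩
      nlinarith [norm_nonneg τ]
    obtain ⟨C, hC⟩ := Pool.Agent.H46KC.mean_adm (hβ.trans hββ.le) (hM' M β hβ) hτ hτβ'
    refine ⟨C, fun R hR ψ h hS hc => ?_⟩
    have hE := Q90.SM.ext_all ψ h hS
    have hR0 : 0 < R⁻¹ := by positivity
    have hR1 : R⁻¹ < 1 := inv_lt_one_of_one_lt₀ hR
    have h1 := hC (Pool.Agent.W677.Mar.hat h 0) (adm_of hS hββ hc) R⁻¹ hR0 hR1
    have h2 : powerMean τ R h = Real.circleAverage (fun v => ‖Complex.exp (τ * Pool.Agent.W677.Mar.hat h 0 v)‖) 0 R⁻¹ := by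
      have h3 := hE.2.2 τ R hR
      have h4 : powerMean τ R h = Q90.SM.pmean τ R h := rfl
      rw [h4, h3]
      unfold Pool.Agent.TH325.SI.mn Real.circleAverage
      rw [smul_eq_mul]
      congr 1
      apply intervalIntegral.integral_congr
      intro θ _
      simp only [Q90.SM.FF]
      rw [← norm_pow, ← Complex.exp_nat_mul]
      congr 2
      push_cast
      ring
    rw [h2]
    exact h1

end Pool.Agent.Results.MP_16b0ee_an.AnyDirection
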