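import Mathlib
import Pool.Agent.Z55M.Geo

set_option autoImplicit false

/-!
# MP_16b0ee_an: complex power means for spirallike (in particular starlike) omitted sets

Let `ψ ∈ Σ`, `h = log ψ'`, and let `K = ℂ ∖ ψ {|z| > 1}` be the omitted set. Suppose that `K` is spirallike with respect to
one of its points `c`: for some `l` with positive real part the set `K` contains with every point `w` the whole spiral
`c + exp (- t l) (w - c)`, `t ≥ 0`. For `l = 1` this says that `K` is starlike with respect to `c`; convex sets are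
included.

For every complex `τ` with `|τ| < 1` the integral means of `|ψ' ^ τ|` are bounded uniformly for all `R > 1` and all such
`ψ`. (With `|h(Rζ)| ≤ log (R² / (R² - 1))` this gives the bound of Q1 for all `0 < a < 1`, which for this class is also
contained in the theorem `Pool.Agent.W677.Mar.main_ext` of the library.)

The proof. In the disc variable `v = 1 / z` let `g(v) = v (ψ(1/v) - c)` and `exp H = ψ'(1/v) = g - v g'`. The invariance of
the domain under the spiral flow and the lemma of Schwarz give `Re q > 0` for `q = μ exp(H) / g`, `|μ| = 1`. So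
`log g` is a potential: the integral of `log (1 - v/ζ)` against the density of `q`, and Jensen's inequality bounds
`|g ^ τ|` pointwise by an average of `|1 - v/ζ| ^ (-(|τ| - Re τ))`. If `Re τ ≥ 0` one combines this with `|q| ^ (Re τ)` by
the inequality of the means and Kolmogorov's inequality for functions with positive real part. If `Re τ < 0` the kernel is
no longer integrable, and one differentiates the mean `X(r)` of `|g ^ τ| q ^ (Re τ)` with respect to the radius: the
relation `v g' / g = 1 - conj μ q` gives `r X' - conj τ X = O(mean of |g ^ τ| |q| ^ (1 + Re τ))`, which is integrable in `r`.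
-/

namespace Pool.Agent.Results.MP_16b0ee_an.SpirallikePowerMeans

/-- The point `r e^{iθ}`. -/
noncomputable def circ (r θ : ℝ) : ℂ := (r : ℂ) * Complex.exp ((θ : ℂ) * Complex.I)

/-- `ψ ∈ Σ` and `h = log ψ'` (the branch vanishing at infinity), exactly as in the problem. -/
def IsSigma (ψ h : ℂ → ℂ) : Prop :=
  DifferentiableOn ℂ ψ {z : ℂ | 1 < ‖z‖} ∧
  Set.InjOn ψ {z : ℂ | 1 < ‖z‖} ∧
  (∃ b : ℂ, Filter.Tendsto (fun z => ψ z - z) (Bornology.cobounded ℂ) (nhds b)) ∧
  DifferentiableOn ℂ h {z : ℂ | 1 < ‖z‖} ∧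
  (∀ z : ℂ, 1 < ‖z‖ → Complex.exp (h z) = deriv ψ z) ∧
  Filter.Tendsto h (Bornology.cobounded ℂ) (nhds 0)

/-- The integral mean of `|ψ' ^ τ|` over the circle `|z| = R`, `τ` complex, `h = log ψ'`. -/
noncomputable def powerMean (τ : ℂ) (R : ℝ) (h : ℂ → ℂ) : ℝ :=
  (1 / (2 * Real.pi)) * ∫ θ in (0:ℝ)..(2 * Real.pi), ‖Complex.exp (τ * h (circ R θ))‖

/-- The set of the values omitted by `ψ` in `|z| > 1`. -/
def omitted (ψ : ℂ → ℂ) : Set ℂ := {w : ℂ | ∀ z : ℂ, 1 < ‖z‖ → ψ z ≠ w}

/-- `K` is spirallike with respect to one of its points `c`: for some `l` with positive real part it contains with each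
point `w` the logarithmic spiral `c + exp (- t l) (w - c)`, `t ≥ 0`. For `l = 1` the spiral is the segment from `w` to `c`,
and the condition (for closed `K`) says that `K` is starlike with respect to `c`. -/
def IsSpirallike (K : Set ℂ) : Prop :=
  ∃ c ∈ K, ∃ l : ℂ, 0 < l.re ∧ ∀ w ∈ K, ∀ t : ℝ, 0 ≤ t → c + Complex.exp (-((t : ℂ) * l)) * (w - c) ∈ K

theorem spi {ψ h : ℂ → ℂ} (hS : IsSigma ψ h) (hK : IsSpirallike (omitted ψ)) :
    Pool.Agent.Z55M.Spi (Pool.Agent.W677.Mar.hat h 0) := by
  obtain ⟨c, hc, l, hl, hin⟩ := hK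
  have hSg := (Q90.SM.ext_all ψ h hS).1
  have hY : ∀ v : ℂ, v ≠ 0 → Pool.Agent.W677.Mar.hat (fun z => ψ z / z) 1 v / v = ψ v⁻¹ := by
    intro v hv
    rw [Pool.Agent.W677.Mar.hat_ne _ _ hv]
    field_simp
  refine Pool.Agent.Z55M.spi_of hSg hl (c := c) (fun v hv hv0 => ?_) (fun v hv hv0 t ht => ?_)
  · rw [hY v hv0]
    exact hc v⁻¹ (Pool.Agent.W677.Mar.inv_ext hv hv0)
  · rw [hY v hv0]
    have hv1 := Pool.Agent.W677.Mar.inv_ext hv hv0
    have h1 : ¬ (c + Complex.exp (t * l) * (ψ v⁻¹ - c) ∈ omitted ψ) := by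
      intro h2
      have h3 := hin _ h2 t ht
      have h4 : c + Complex.exp (-((t : ℂ) * l)) * (c + Complex.exp (t * l) * (ψ v⁻¹ - c) - c) = ψ v⁻¹ := by
        have h5 : Complex.exp (-((t : ℂ) * l)) * Complex.exp (t * l) = 1 := by
          rw [← Complex.exp_add, neg_add_cancel, Complex.exp_zero]
        linear_combination (ψ v⁻¹ - c) * h5
      rw [h4] at h3
      exact h3 v⁻¹ hv1 rfl
    unfold omitted at h1
    rw [Set.mem_ofPred_eq] at h1
    push Not at h1
    obtain ⟨z, hz, hz2⟩ := h1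
    have hz0 : z ≠ 0 := by
      rintro rfl
      rw [norm_zero] at hz
      linarith
    refine ⟨z⁻¹, ?_, inv_ne_zero hz0, ?_⟩
    · rw [mem_ball_zero_iff, norm_inv]
      exact inv_lt_one_of_one_lt₀ hz
    · rw [hY _ (inv_ne_zero hz0), inv_inv, hz2]
      ring

theorem result :
    ∀ τ : ℂ, ‖τ‖ < 1 → ∃ C : ℝ, ∀ R : ℝ, 1 < R → ∀ ψ h : ℂ → ℂ, IsSigma ψ h → IsSpirallike (omitted ψ) →
      powerMean τ R h ≤ C := by
  intro τ hτ
  obtain ⟨C, hC⟩ := Pool.Agent.Z55M.mean_H hτ
  refine ⟨C, fun R hR ψ h hS hK => ?_⟩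
  have hE := Q90.SM.ext_all ψ h hS
  have hR0 : 0 < R⁻¹ := by positivity
  have hR1 : R⁻¹ < 1 := inv_lt_one_of_one_lt₀ hR
  have h1 := hC (Pool.Agent.W677.Mar.hat h 0) (spi hS hK) R⁻¹ hR0 hR1
  have h2 : powerMean τ R h = Real.circleAverage (fun v => ‖Complex.exp (τ * Pool.Agent.W677.Mar.hat h 0 v)‖) 0 R⁻¹ := by
    have h3 := hE.2.2 τ R hR
    have h4 : powerMean τ R h = Q90.SM.pmean τ R h := rfl
    rw [h4, h3]
    unfold Pool.Agent.TH325.SI.mn Real.circleAverage
    rw [smul_eq_mul]
    congr 1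
    apply intervalIntegral.integral_congr
    intro θ _
    simp only [Q90.SM.FF]
    rw [← norm_pow, ← Complex.exp_nat_mul]
    congr 2
    push_cast
    ring
  rw [h2]
  exact h1

end Pool.Agent.Results.MP_16b0ee_an.SpirallikePowerMeans
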