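import Mathlib
import Pool.Agent.Helper63x.TC.Tr

set_option autoImplicit false

/-!
# MP_16b0ee_an: the strong Marshall bound when the turning of one level curve is under control

Let `ψ ∈ Σ`, `h = log ψ'` and `R₀ > 1`. Along the level curve `θ ↦ ψ(R₀ e^{iθ})` the direction of the tangent is
`θ + π / 2 + f(θ)` with `f(θ) = Im h(R₀ e^{iθ})`. Suppose that `f` is, up to an error of at most `κ π / 2` (which need not be
small, and which is not assumed to have any regularity), a function with finite Gagliardo seminorm of order `t` in `L¹` - a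
`2 π`-periodic function of `W^{t,1}`. If `t < 1` and `t κ < 1`, then the integral of the question for each `a < t` and the
integral means of `|ψ' ^ τ|` for each complex `|τ| ≤ t` are bounded on all the circles `|z| = R`, `R > R₀`, by a constant
that depends only on `a`, `t`, `κ` and (linearly) on the seminorm; in particular not on `R₀` and `R`. Corollaries, in the full
range `0 < a < 1` of the question:

* `f` is within `κ π / 2` of a function of bounded variation;
* Kaplan's condition: the tangent of the level curve never turns back by more than `π`. This is the class of the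
  close-to-convex functions; it contains the starlike and the convex ones;
* the level curve is cut into `n` arcs, each of them monotone in some direction (weakly, and the arcs may oscillate
  infinitely often within their half planes of directions): the bound is linear in `n`.

Proof. Let `v = 1 / z`, `H(v) = conj h(R₀ / conj v)`, let `A` be the Schwarz integral with imaginary part `u`, the given
function, and `B = H - A`; so `|Im B| ≤ κ π / 2` in the disc by the maximum principle. Up to a constant factor the mean of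
`|exp(τ H)|` on `|v| = r` is the modulus of `X(r)`, the mean of `exp(τ A / 2 + s B) · conj exp(τ A / 2)` with `s = Re τ`, as
`t κ < 1`. In `X'(r)` the derivative may be thrown on the second factor by Cauchy's theorem, so
`|X'(r)| ≤ C · mean (|exp(τ H)| |A'|) ≤ C (1 - r²)^{-t} · mean |A'|` by Goluzin's inequality `|H| ≤ log (1 / (1 - |v|²))`,
and the last quantity is integrable over `0 < r < 1` exactly because of the `W^{t,1}` condition.
-/

namespace Pool.Agent.Results.MP_16b0ee_an.TurningCriterion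

/-- The point `r e^{iθ}`. -/
noncomputable def circ (r θ : ℝ) : ℂ := (r : ℂ) * Complex.exp ((θ : ℂ) * Complex.I)

/-- `ψ ∈ Σ` and `h = log ψ'` (the branch vanishing at infinity), exactly as in the problem. -/
def IsSigma (ψ h : ℂ → ℂ) : Prop :=
  DifferentiableOn ℂ ψ {z : ℂ | 1 < ‖z‖} ∧
  Set.InjOn ψ {z : ℂ | 1 < ‖z‖} ∧
  (∃ b : ℂ, Filter.Tendsto (fun z => ψ z - z) (Bornology.cobounded ℂ) (nhds b)) ∧
  DifferentiableOn ℂ h {z : ℂ | 1 < ‖z‖} ∧
  (∀ z : ℂ, 1 < ‖z‖ → Complex.exp (h z) = deriv ψ z) ∧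
  Filter.Tendsto h (Bornology.cobounded ℂ) (nhds 0)

/-- The integral of Q1. -/
noncomputable def marshall (a R : ℝ) (h : ℂ → ℂ) : ℝ :=
  (1 / (2 * Real.pi)) * ∫ θ in (0:ℝ)..(2 * Real.pi),
    Real.exp (a * ‖h (circ R θ)‖ ^ 2 / Real.log (R ^ 2 / (R ^ 2 - 1)))

/-- The integral mean of `|ψ' ^ τ|` over the circle `|z| = R`, `τ` complex, `h = log ψ'`. -/
noncomputable def powerMean (τ : ℂ) (R : ℝ) (h : ℂ → ℂ) : ℝ :=
  (1 / (2 * Real.pi)) * ∫ θ in (0:ℝ)..(2 * Real.pi), ‖Complex.exp (τ * h (circ R θ))‖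

/-- The conclusion: for all `R > R₀` the integral of Q1 with the constant `a` is at most `C`, and so are the integral means
of `|ψ' ^ τ|` for all complex `τ` with `|τ| ≤ t`. -/
def Bounds (a t C R₀ : ℝ) (h : ℂ → ℂ) : Prop :=
  ∀ R : ℝ, R₀ < R → (∀ τ : ℂ, ‖τ‖ ≤ t → powerMean τ R h ≤ C) ∧ marshall a R h ≤ C

/-- The argument of `ψ'` along the circle `|z| = R₀`: the direction of the tangent of the level curve `ψ(R₀ e^{iθ})` is
`θ + π / 2 + turning R₀ h θ`. -/
noncomputable def turning (R₀ : ℝ) (h : ℂ → ℂ) (θ : ℝ) : ℝ := (h (circ R₀ θ)).im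

/-- The Gagliardo seminorm of order `t` in `L¹` of a `2 π`-periodic function:
`∫_{-π}^{π} |s|^{-1-t} ∫_0^{2π} |w(x + s) - w(x)| dx ds`, an element of `[0, ∞]`. -/
noncomputable def seminorm (t : ℝ) (w : ℝ → ℝ) : ENNReal :=
  ∫⁻ s in Set.Ioc (-Real.pi) Real.pi, ENNReal.ofReal (|s| ^ (-(1 + t))) *
    ∫⁻ x in Set.Ioc 0 (2 * Real.pi), ENNReal.ofReal |w (x + s) - w x|

/-- The level curve `ψ(R₀ e^{iθ})` is cut into `n` consecutive arcs (some may be points), and on the `i`-th arc the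
projection of `ψ(R₀ e^{iθ})` to some direction `b i ≠ 0` is nondecreasing. -/
def PiecewiseMonotone (n : ℕ) (R₀ : ℝ) (ψ : ℂ → ℂ) : Prop :=
  ∃ (θ : ℤ → ℝ) (b : ℤ → ℂ), Monotone θ ∧ (∀ i, θ (i + n) = θ i + 2 * Real.pi) ∧ ∀ i, b i ≠ 0 ∧
    MonotoneOn (fun x => ((starRingEnd ℂ) (b i) * ψ (circ R₀ x)).re) (Set.Icc (θ i) (θ (i + 1)))

theorem per {R₀ : ℝ} {h : ℂ → ℂ} : Function.Periodic (turning R₀ h) (2 * Real.pi) := by
  intro x
  have h1 : circ R₀ (x + 2 * Real.pi) = circ R₀ x := by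
    unfold circ
    congr 1
    push_cast
    rw [add_mul, Complex.exp_add, Complex.exp_two_pi_mul_I, mul_one]
  unfold turning
  rw [h1]

/-- **The criterion.** Let `0 < a < t < 1`, `0 ≤ κ` and `t κ < 1`. -/
theorem result {a t : ℝ} (ha : 0 < a) (hat : a < t) (ht : t < 1) :
    -- (1) the turning is within `κ π / 2` of a function of `W^{t,1}`
    (∀ κ : ℝ, 0 ≤ κ → t * κ < 1 → ∃ C : ℝ, ∀ V : ℝ, 0 ≤ V → ∀ R₀ : ℝ, 1 < R₀ → ∀ ψ h : ℂ → ℂ, IsSigma ψ h →
      ∀ w : ℝ → ℝ, Measurable w → Function.Periodic w (2 * Real.pi) →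
      (∀ θ, |turning R₀ h θ - w θ| ≤ κ * (Real.pi / 2)) → seminorm t w ≤ ENNReal.ofReal V →
      Bounds a t (C * (1 + V)) R₀ h) ∧
    -- (2) the turning is within `κ π / 2` of a function of bounded variation
    (∀ κ : ℝ, 0 ≤ κ → t * κ < 1 → ∃ C : ℝ, ∀ V : ℝ, 0 ≤ V → ∀ R₀ : ℝ, 1 < R₀ → ∀ ψ h : ℂ → ℂ, IsSigma ψ h →
      ∀ w : ℝ → ℝ, Function.Periodic w (2 * Real.pi) →
      (∀ θ, |turning R₀ h θ - w θ| ≤ κ * (Real.pi / 2)) → eVariationOn w (Set.Icc 0 (2 * Real.pi)) ≤ ENNReal.ofReal V →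
      Bounds a t (C * (1 + V)) R₀ h) ∧
    -- (3) the tangent never turns back by more than `π`
    (∃ C : ℝ, ∀ R₀ : ℝ, 1 < R₀ → ∀ ψ h : ℂ → ℂ, IsSigma ψ h →
      (∀ x y : ℝ, x ≤ y → x + turning R₀ h x ≤ y + turning R₀ h y + Real.pi) → Bounds a t C R₀ h) ∧
    -- (4) the level curve is cut into `n` arcs, each of them monotone in some direction
    (∃ C : ℝ, ∀ n : ℕ, 1 ≤ n → ∀ R₀ : ℝ, 1 < R₀ → ∀ ψ h : ℂ → ℂ, IsSigma ψ h → PiecewiseMonotone n R₀ ψ →
      Bounds a t (C * n) R₀ h) := by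
  have hpi := Real.pi_pos
  refine ⟨?_, ?_, ?_, ?_⟩
  · intro κ k0 k1
    obtain ⟨C, -, hC⟩ := Helper63x.TC.crit ha hat ht k0 k1
    exact ⟨C, fun V hV R₀ hR₀ ψ h hS w mw pw nw gw => hC V hV R₀ hR₀ ψ h hS w mw pw nw gw⟩
  · intro κ k0 k1
    obtain ⟨C, hC0, hC⟩ := Helper63x.TC.crit_ctl ha hat ht k0 k1
    refine ⟨C, fun V hV R₀ hR₀ ψ h hS w pw nw gw => ?_⟩
    obtain ⟨V', hV', hc⟩ := Helper63x.TC.bv_ctl pw gw
    rw [max_eq_left hV] at hV'
    have h1 := hC V' R₀ hR₀ ψ h hS w pw nw hc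
    have h2 : C * (1 + V') ≤ C * (1 + V) := mul_le_mul_of_nonneg_left (by linarith) hC0
    intro R hR
    obtain ⟨h3, h4⟩ := h1 R hR
    exact ⟨fun τ hτ => (h3 τ hτ).trans h2, h4.trans h2⟩
  · obtain ⟨C, hC0, hC⟩ := Helper63x.TC.crit_ctl (κ := 1) ha hat ht zero_le_one (by linarith)
    refine ⟨C * (1 + 4 * Real.pi), fun R₀ hR₀ ψ h hS hK => ?_⟩
    obtain ⟨w, pw, nw, hc⟩ := Helper63x.TC.kaplan_near (per (R₀ := R₀) (h := h)) hK
    exact hC (4 * Real.pi) R₀ hR₀ ψ h hS w pw (fun θ => by rw [one_mul]; exact nw θ) hc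
  · obtain ⟨C, hC0, hC⟩ := Helper63x.TC.crit_ctl (κ := 1) ha hat ht zero_le_one (by linarith)
    refine ⟨C * (1 + 3 * Real.pi), fun n hn R₀ hR₀ ψ h hS hP => ?_⟩
    obtain ⟨θ, b, hθ, hper, hb⟩ := hP
    obtain ⟨w, pw, nw, hc⟩ := Helper63x.TC.arcs_near (per (R₀ := R₀) (h := h)) hθ hper
      (fun i => Helper63x.TC.arc_turn hS hR₀ (hb i).1 (hb i).2)
    have h1 := hC _ R₀ hR₀ ψ h hS w pw (fun θ => by rw [one_mul]; exact nw θ) hc
    have hn1 : (1 : ℝ) ≤ n := by exact_mod_cast hn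
    have h2 : C * (1 + (Real.pi * n + 2 * Real.pi)) ≤ C * (1 + 3 * Real.pi) * n := by
      rw [mul_assoc]
      apply mul_le_mul_of_nonneg_left _ hC0
      nlinarith
    intro R hR
    obtain ⟨h3, h4⟩ := h1 R hR
    exact ⟨fun τ hτ => (h3 τ hτ).trans h2, h4.trans h2⟩

end Pool.Agent.Results.MP_16b0ee_an.TurningCriterion
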