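import Mathlib
import Pool.Agent.Z55U.J4

/-!
# A universal map for the strong Marshall conjecture

Q1 asks whether, for every `0 < a < 1`, the integral
`∫ exp (a |h_ψ (Rζ)|² / log (R² / (R² - 1))) ds(ζ)`, `h_ψ = log ψ'`, is bounded by a constant
`C(a)`, uniformly for all `ψ ∈ Σ` and all `R` near `1`.  For complex `τ` let `β_ψ(τ)` be the integral
means exponent of `ψ`, that is the upper limit, for `R → 1`, of
`log (∫ |ψ'(Rζ)^τ| ds) / log (1 / (R - 1))`.  Binder's conjecture is `β_ψ(τ) ≤ |τ|²/4` for every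
`ψ ∈ Σ` and `|τ| ≤ 2`.  It was known that the strong Marshall conjecture implies it.

We prove that there is **one single map `ψ* ∈ Σ`** with the following properties.

1. `β_ψ(τ) ≤ β_{ψ*}(τ)` for all `ψ ∈ Σ` and all complex `τ`.
2. There is a constant `C` such that, for all complex `τ`, all `ψ ∈ Σ` and all `R` near `1`,
   `∫ |ψ'(Rζ)^τ| ds ≤ C exp (C |τ| √(log (1/(R-1)))) (R - 1)^(-β_{ψ*}(τ))`.
3. `β_{ψ*}(τ)` is also the supremum of the lower exponents of the maps in `Σ`.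
4. For every `α > 0` the following statements are equivalent (for `α = 1` the first one is Q1, the
   sixth is Binder's conjecture):
   the uniform bound of Q1 for all `a < α`; the same with the constant `exp (C / (α - a))`;
   the uniform bound
   `∫ |ψ'(Rζ)^τ| ds ≤ C exp (C |τ| √(log (1/(R-1)))) (R - 1)^(-|τ|²/(4α))` for `|τ| ≤ 2α`;
   for each single `ψ ∈ Σ` and `a < α` the integral of Q1 is `≤ (R - 1)^(-ε)` for `R` near `1`;
   the same only for some radii which tend to `1` (which may depend on `ψ`, `a`, `ε`);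
   `β_ψ(τ) ≤ |τ|²/(4α)` for `|τ| ≤ 2α` and each `ψ`; the same for the lower exponents;
   for the single map `ψ*` and all `a < α` the integral of Q1 is `≤ (R - 1)^(-ε)` for `R` near `1`;
   `β_{ψ*}(τ) ≤ |τ|²/(4α)` for `|τ| ≤ 2α`.

In particular the strong Marshall conjecture for the whole class `Σ` is equivalent to Binder's bound
for the single map `ψ*`.

Proof.  For `ψ ∈ Σ` let `F` be the composition of `ψ` with the conformal map of the exterior of the
disc onto the exterior of two tangent discs, normalised such that `|F| ≥ 3`.  The map `F` carries at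
least half of the mean of `|ψ'^τ|` at the scale `1/N`, and by the inequality of Goluzin (with two
points) `log (F(z)/z)` is at most a constant times `1 + √(log N)` at this scale.  For a sequence
`(F_i, N_i)` of such maps and integers there is a solution of the system of functional equations
`Ψ_i(z) = F_i(Ψ_{i+1}(z^{N_i})^{1/N_i})`; the maps `Ψ_i` are univalent, and the mean of `|Ψ_0'^τ|` at
the scale `1/(N_0 ⋯ N_{k-1})` is at least the product over `i < k` of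
`exp (-C |τ| (1 + √(log N_i)))` times the mean of `F_i` at the scale `1/N_i`.  With a suitable
sequence, in which each map of a countable dense set and each integer `N ≥ N₀` has very long runs,
the map `Ψ_0` is universal.  The equivalences follow by averaging over `τ` with a Gaussian weight.
-/

open Filter Topology

namespace Pool.Agent.Results.MP_16b0ee_an.UniversalMap

/-- `ψ` is in the class `Σ` (holomorphic and injective in `|z| > 1`, `ψ(z) = z + b₀ + O(1/z)`), and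
`h = log ψ'` is the branch which is holomorphic in `|z| > 1` and tends to `0` at infinity. -/
def IsSigma (ψ h : ℂ → ℂ) : Prop :=
  DifferentiableOn ℂ ψ {z : ℂ | 1 < ‖z‖} ∧
  Set.InjOn ψ {z : ℂ | 1 < ‖z‖} ∧
  (∃ b : ℂ, Tendsto (fun z => ψ z - z) (Bornology.cobounded ℂ) (𝓝 b)) ∧
  DifferentiableOn ℂ h {z : ℂ | 1 < ‖z‖} ∧
  (∀ z : ℂ, 1 < ‖z‖ → Complex.exp (h z) = deriv ψ z) ∧
  Tendsto h (Bornology.cobounded ℂ) (𝓝 0)

/-- The integral of the question, for one map. -/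
noncomputable def marshall (a R : ℝ) (h : ℂ → ℂ) : ℝ :=
  (1 / (2 * Real.pi)) * ∫ θ in (0:ℝ)..(2 * Real.pi),
    Real.exp (a * ‖h ((R : ℂ) * Complex.exp ((θ : ℂ) * Complex.I))‖ ^ 2 /
      Real.log (R ^ 2 / (R ^ 2 - 1)))

/-- The integral mean of `|ψ'^τ| = |exp (τ h)|` on the circle `|z| = R`, for complex `τ`. -/
noncomputable def powerMean (τ : ℂ) (R : ℝ) (h : ℂ → ℂ) : ℝ :=
  (1 / (2 * Real.pi)) * ∫ θ in (0:ℝ)..(2 * Real.pi),
    ‖Complex.exp (τ * h ((R : ℂ) * Complex.exp ((θ : ℂ) * Complex.I)))‖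

/-- The (upper) integral means exponent `β_ψ(τ)`. -/
noncomputable def upperBeta (τ : ℂ) (h : ℂ → ℂ) : ℝ :=
  limsup (fun R : ℝ => Real.log (powerMean τ R h) / Real.log (1 / (R - 1))) (𝓝[>] 1)

/-- The lower integral means exponent. -/
noncomputable def lowerBeta (τ : ℂ) (h : ℂ → ℂ) : ℝ :=
  liminf (fun R : ℝ => Real.log (powerMean τ R h) / Real.log (1 / (R - 1))) (𝓝[>] 1)

/-- **There is a universal map `ψ₀ ∈ Σ`, and Q1 is equivalent to Binder's bound for this map.** -/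
theorem result : ∃ ψ₀ h₀ : ℂ → ℂ, IsSigma ψ₀ h₀ ∧
    -- the exponents of `ψ₀` dominate those of all maps of the class
    (∀ (τ : ℂ) (ψ h : ℂ → ℂ), IsSigma ψ h →
      lowerBeta τ h ≤ upperBeta τ h ∧ upperBeta τ h ≤ upperBeta τ h₀) ∧
    -- uniform bound at every scale
    (∃ C R₀ : ℝ, 1 < R₀ ∧ ∀ (τ : ℂ) (ψ h : ℂ → ℂ), IsSigma ψ h → ∀ R : ℝ, 1 < R → R < R₀ →
      powerMean τ R h ≤
        C * Real.exp (C * ‖τ‖ * √(Real.log (1 / (R - 1)))) * (R - 1) ^ (-(upperBeta τ h₀))) ∧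
    -- the lower exponents have the same supremum
    (∀ (τ : ℂ) (ε : ℝ), 0 < ε → ∃ ψ h : ℂ → ℂ, IsSigma ψ h ∧
      upperBeta τ h₀ - ε < lowerBeta τ h) ∧
    ∀ α : ℝ, 0 < α → List.TFAE [
      -- (i) the bound of Q1 for all `a < α`
      ∀ a : ℝ, 0 < a → a < α → ∃ C R₀ : ℝ, 1 < R₀ ∧ ∀ R : ℝ, 1 < R → R < R₀ →
        ∀ ψ h : ℂ → ℂ, IsSigma ψ h → marshall a R h ≤ C,
      -- (ii) with an explicit constant
      ∃ C R₀ : ℝ, 1 < R₀ ∧ ∀ a : ℝ, 0 < a → a < α → ∀ R : ℝ, 1 < R → R < R₀ →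
        ∀ ψ h : ℂ → ℂ, IsSigma ψ h → marshall a R h ≤ Real.exp (C / (α - a)),
      -- (iii) the uniform bound for the complex power means
      ∃ C R₀ : ℝ, 1 < R₀ ∧ ∀ τ : ℂ, ‖τ‖ ≤ 2 * α → ∀ R : ℝ, 1 < R → R < R₀ →
        ∀ ψ h : ℂ → ℂ, IsSigma ψ h → powerMean τ R h ≤
          C * Real.exp (C * ‖τ‖ * √(Real.log (1 / (R - 1)))) * (R - 1) ^ (-(‖τ‖ ^ 2 / (4 * α))),
      -- (iv) each single map, exponent zero
      ∀ a : ℝ, 0 < a → a < α → ∀ ψ h : ℂ → ℂ, IsSigma ψ h → ∀ ε : ℝ, 0 < ε →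
        ∃ R₀ : ℝ, 1 < R₀ ∧ ∀ R : ℝ, 1 < R → R < R₀ → marshall a R h ≤ (R - 1) ^ (-ε),
      -- (v) each single map, along some radii
      ∀ a : ℝ, 0 < a → a < α → ∀ ψ h : ℂ → ℂ, IsSigma ψ h → ∀ ε : ℝ, 0 < ε →
        ∀ R₀ : ℝ, 1 < R₀ → ∃ R : ℝ, 1 < R ∧ R < R₀ ∧ marshall a R h ≤ (R - 1) ^ (-ε),
      -- (vi) Binder's bound for each single map
      ∀ τ : ℂ, ‖τ‖ ≤ 2 * α → ∀ ψ h : ℂ → ℂ, IsSigma ψ h → upperBeta τ h ≤ ‖τ‖ ^ 2 / (4 * α),
      -- (vii) the same for the lower exponents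
      ∀ τ : ℂ, ‖τ‖ ≤ 2 * α → ∀ ψ h : ℂ → ℂ, IsSigma ψ h → lowerBeta τ h ≤ ‖τ‖ ^ 2 / (4 * α),
      -- (viii) the universal map, exponent zero
      ∀ a : ℝ, 0 < a → a < α → ∀ ε : ℝ, 0 < ε →
        ∃ R₀ : ℝ, 1 < R₀ ∧ ∀ R : ℝ, 1 < R → R < R₀ → marshall a R h₀ ≤ (R - 1) ^ (-ε),
      -- (ix) Binder's bound for the universal map
      ∀ τ : ℂ, ‖τ‖ ≤ 2 * α → upperBeta τ h₀ ≤ ‖τ‖ ^ 2 / (4 * α)] :=
  Pool.Agent.Z55U.final

end Pool.Agent.Results.MP_16b0ee_an.UniversalMap
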